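import Pool.Agent.Lib_helper18.SteinerComb

/-!
# MP_83fe1d_co: Steiner trees of `n` points in the unit square

For every `n ≥ 1` and every set `X` of `n` points of the unit square there is a Steiner tree of `X` (a
finite network of straight line segments whose union is connected and contains `X`) of total length at
most `(1 - 0.093/18) √n + 6`, and `1 - 0.093/18 < 0.9949 < 0.995`. Here `minLength X` is the infimum of the
lengths of the Steiner trees of `X`.
-/

set_option autoImplicit false

namespace Pool.Agent.Results.MP_83fe1d_co.SteinerConstant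

/-- the plane -/
abbrev Plane := EuclideanSpace ℝ (Fin 2)

/-- the union of the segments of a finite network; the pair `(a, b)` stands for the segment `[a, b]` -/
def union (E : Finset (Plane × Plane)) : Set Plane :=
  {z | ∃ e ∈ E, z ∈ segment ℝ e.1 e.2}

/-- the total length of the segments of a finite network -/
noncomputable def length (E : Finset (Plane × Plane)) : ℝ :=
  ∑ e ∈ E, dist e.1 e.2

/-- `E` is a Steiner tree of `X`: the union of the segments is connected and contains `X` -/
def IsSteinerTree (X : Finset Plane) (E : Finset (Plane × Plane)) : Prop :=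
  IsConnected (union E) ∧ (X : Set Plane) ⊆ union E

/-- the length `L_s(X)` of a minimal Steiner tree of `X`, as an infimum -/
noncomputable def minLength (X : Finset Plane) : ℝ :=
  sInf {t : ℝ | ∃ E : Finset (Plane × Plane), IsSteinerTree X E ∧ t = length E}

/-- the unit square -/
def UnitSquare : Set Plane := {x | ∀ i : Fin 2, 0 ≤ x i ∧ x i ≤ 1}

theorem length_nonneg (E : Finset (Plane × Plane)) : 0 ≤ length E :=
  Finset.sum_nonneg fun _ _ => dist_nonneg

theorem minLength_le {X : Finset Plane} {E : Finset (Plane × Plane)} (h : IsSteinerTree X E) :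
    minLength X ≤ length E :=
  csInf_le ⟨0, by rintro t ⟨E', -, rfl⟩; exact length_nonneg E'⟩ ⟨E, h, rfl⟩

/-- a network in which the points of `X` are joined by chains of segments contains a Steiner tree -/
theorem exists_tree (X : Finset Plane) (hX : X.Nonempty) (E : Finset (Plane × Plane))
    (hE : ∀ x ∈ X, ∀ y ∈ X, Relation.ReflTransGen (fun a b => (a, b) ∈ E ∨ (b, a) ∈ E) x y) :
    ∃ E' : Finset (Plane × Plane), IsSteinerTree X E' ∧ length E' ≤ length E := by
  classical
  obtain ⟨x0, hx0⟩ := hX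
  obtain ⟨E', hE'⟩ : ∃ E' : Finset (Plane × Plane), E' = insert (x0, x0)
    (E.filter fun e => Relation.ReflTransGen (fun a b => (a, b) ∈ E ∨ (b, a) ∈ E) x0 e.1) := ⟨_, rfl⟩
  have hx0U : x0 ∈ union E' :=
    ⟨(x0, x0), by rw [hE']; exact Finset.mem_insert_self _ _, left_mem_segment ℝ _ _⟩
  have hseg : ∀ e ∈ E', segment ℝ e.1 e.2 ⊆ union E' := fun e he z hz => ⟨e, he, hz⟩
  have key : ∀ v, Relation.ReflTransGen (fun a b => (a, b) ∈ E ∨ (b, a) ∈ E) x0 v →
      ∃ t : Set Plane, t ⊆ union E' ∧ x0 ∈ t ∧ v ∈ t ∧ IsPreconnected t := by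
    intro v hv
    induction hv with
    | refl => exact ⟨{x0}, by simpa using hx0U, rfl, rfl, isPreconnected_singleton⟩
    | @tail v w hv hvw ih =>
      obtain ⟨t, h1, h2, h3, h4⟩ := ih
      have h5 : ∃ e ∈ E', v ∈ segment ℝ e.1 e.2 ∧ w ∈ segment ℝ e.1 e.2 := by
        rcases hvw with h | h
        · refine ⟨(v, w), ?_, left_mem_segment ℝ _ _, right_mem_segment ℝ _ _⟩
          rw [hE']
          exact Finset.mem_insert_of_mem (Finset.mem_filter.2 ⟨h, hv⟩)
        · refine ⟨(w, v), ?_, right_mem_segment ℝ _ _, left_mem_segment ℝ _ _⟩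
          rw [hE']
          exact Finset.mem_insert_of_mem (Finset.mem_filter.2 ⟨h, hv.tail (Or.inr h)⟩)
      obtain ⟨e, he, h6, h7⟩ := h5
      refine ⟨t ∪ segment ℝ e.1 e.2, Set.union_subset h1 (hseg e he), Or.inl h2, Or.inr h7, ?_⟩
      exact IsPreconnected.union v h3 h6 h4 (convex_segment e.1 e.2).isPreconnected
  refine ⟨E', ⟨⟨⟨x0, hx0U⟩, ?_⟩, ?_⟩, ?_⟩
  · refine isPreconnected_of_forall x0 fun z hz => ?_
    obtain ⟨e, he, hze⟩ := hz
    have h1 : Relation.ReflTransGen (fun a b => (a, b) ∈ E ∨ (b, a) ∈ E) x0 e.1 := by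
      rw [hE', Finset.mem_insert, Finset.mem_filter] at he
      rcases he with rfl | ⟨-, h⟩
      · exact Relation.ReflTransGen.refl
      · exact h
    obtain ⟨t, h2, h3, h4, h5⟩ := key _ h1
    refine ⟨t ∪ segment ℝ e.1 e.2, Set.union_subset h2 (hseg e he), Or.inl h3, Or.inr hze, ?_⟩
    exact IsPreconnected.union e.1 h4 (left_mem_segment ℝ _ _) h5
      (convex_segment e.1 e.2).isPreconnected
  · intro y hy
    obtain ⟨t, h2, -, h4, -⟩ := key y (hE x0 hx0 y hy)
    exact h2 h4
  · unfold length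
    rw [hE']
    calc ∑ e ∈ insert (x0, x0) (E.filter fun e =>
          Relation.ReflTransGen (fun a b => (a, b) ∈ E ∨ (b, a) ∈ E) x0 e.1), dist e.1 e.2
        ≤ ∑ e ∈ {(x0, x0)}, dist e.1 e.2 + ∑ e ∈ (E.filter fun e =>
          Relation.ReflTransGen (fun a b => (a, b) ∈ E ∨ (b, a) ∈ E) x0 e.1), dist e.1 e.2 := by
          rw [← Finset.sum_union_inter, Finset.insert_eq]
          have : 0 ≤ ∑ e ∈ {(x0, x0)} ∩ (E.filter fun e =>
            Relation.ReflTransGen (fun a b => (a, b) ∈ E ∨ (b, a) ∈ E) x0 e.1), dist e.1 e.2 :=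
            Finset.sum_nonneg fun _ _ => dist_nonneg
          linarith
      _ = ∑ e ∈ (E.filter fun e =>
          Relation.ReflTransGen (fun a b => (a, b) ∈ E ∨ (b, a) ∈ E) x0 e.1), dist e.1 e.2 := by
          rw [Finset.sum_singleton, dist_self, zero_add]
      _ ≤ ∑ e ∈ E, dist e.1 e.2 :=
          Finset.sum_le_sum_of_subset_of_nonneg (Finset.filter_subset _ _) fun _ _ _ => dist_nonneg

/-- For every `n ≥ 1` and every `n`-point subset `X` of the unit square, some Steiner tree of `X` has
length at most `c √n + 6`, so that `L_s(X) ≤ c √n + 6`, where `c = 1 - 0.093/18 < 0.995`. -/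
theorem result :
    ∃ c C : ℝ, c = 1 - 0.093 / 18 ∧ C = 6 ∧ c < 0.9949 ∧
      ∀ (n : ℕ) (X : Finset Plane), 1 ≤ n → X.card = n → (X : Set Plane) ⊆ UnitSquare →
        (∃ E : Finset (Plane × Plane), IsSteinerTree X E ∧ length E ≤ c * Real.sqrt n + C) ∧
        minLength X ≤ c * Real.sqrt n + C := by
  refine ⟨1 - 0.093 / 18, 6, rfl, rfl, by norm_num, fun n X hn hXn hX => ?_⟩
  have hne : X.Nonempty := by
    rw [← Finset.card_pos, hXn]; exact hn
  obtain ⟨E, h1, h2⟩ := Pool.Agent.Lib_helper18.Steiner.main X (fun p hp i => hX hp i)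
  obtain ⟨E', h3, h4⟩ := exists_tree X hne E (fun x hx y hy => h1 x hx y hy)
  rw [hXn] at h2
  have h5 : length E' ≤ (1 - 0.093 / 18) * Real.sqrt n + 6 := h4.trans h2
  exact ⟨⟨E', h3, h5⟩, (minLength_le h3).trans h5⟩

end Pool.Agent.Results.MP_83fe1d_co.SteinerConstant
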